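import Pool.Agent.Helper5.AV.StepKit

/-! Project AV part 2 (KS, MP_768c9c_nt), module LS4: the Buchstab step for lower bounds. -/

set_option autoImplicit false

open Filter Topology

namespace Pool.Agent.Helper5.AV

open Pool.Agent.Helper40.AV

theorem band_up {t F ε' Z a b : ℝ} {y l : ℕ} (ht : 1 < t) (hε' : 0 ≤ ε')
    (hU : ∀ z : ℝ, Z ≤ z → ∀ y l : ℕ, z ^ (t - 1) ≤ l → ((RS y l z).card : ℝ) ≤ (F + ε') * l * VV z)
    (ha1 : 1 ≤ a) (hab : a ≤ b) (hZ : Z ≤ a - 1 / 2) (hbl : b ^ t ≤ l) :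
    ∑ p ∈ PI a b, NP y l p ≤ (F + ε') * l * (VV a - VV b) + (|F| + ε') * b := by
  have hb0 : 0 ≤ b := by linarith
  have hterm : ∀ p ∈ PI a b, NP y l p ≤
      (F + ε') * l * (VV ((p : ℝ) - 1 / 2) / p) + (|F| + ε') := by
    intro p hp
    obtain ⟨hpp, hpa, hpb⟩ := (mem_PI hb0).1 hp
    have hp0 : (0 : ℝ) < p := by exact_mod_cast hpp.pos
    have hl1 : (l : ℝ) / p ≤ ((l / p + 1 : ℕ) : ℝ) := by
      rw [div_le_iff₀ hp0]
      have h1 := Nat.div_add_mod l p
      have h2 := Nat.mod_lt l hpp.pos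
      have h3 : l ≤ (l / p + 1) * p := by
        rw [Nat.add_mul, Nat.one_mul, Nat.mul_comm (l / p) p]
        omega
      exact_mod_cast h3
    have hl2 : ((l / p + 1 : ℕ) : ℝ) ≤ (l : ℝ) / p + 1 := by
      push_cast
      have := Nat.cast_div_le (α := ℝ) (m := l) (n := p)
      linarith
    have hcond : ((p : ℝ) - 1 / 2) ^ (t - 1) ≤ ((l / p + 1 : ℕ) : ℝ) := by
      have h1 : ((p : ℝ) - 1 / 2) ^ (t - 1) ≤ (p : ℝ) ^ (t - 1) :=
        Real.rpow_le_rpow (by linarith) (by linarith) (by linarith)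
      have h2 : (p : ℝ) ^ (t - 1) ≤ (l : ℝ) / p := by
        rw [le_div_iff₀ hp0]
        calc (p : ℝ) ^ (t - 1) * p = (p : ℝ) ^ (t - 1) * (p : ℝ) ^ (1 : ℝ) := by
              rw [Real.rpow_one]
          _ = (p : ℝ) ^ t := by
              rw [← Real.rpow_add hp0]
              congr 1
              ring
          _ ≤ b ^ t := Real.rpow_le_rpow hp0.le hpb (by linarith)
          _ ≤ l := hbl
      exact h1.trans (h2.trans hl1)
    have h3 := (NP_le y l p hpp).trans (hU ((p : ℝ) - 1 / 2) (by linarith) _ _ hcond)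
    have hV0 := vv_pos ((p : ℝ) - 1 / 2)
    have hV1 := vv_le_one ((p : ℝ) - 1 / 2)
    have h4 : (F + ε') * ((l / p + 1 : ℕ) : ℝ) * VV ((p : ℝ) - 1 / 2) =
        (F + ε') * l * (VV ((p : ℝ) - 1 / 2) / p) +
          (F + ε') * ((((l / p + 1 : ℕ) : ℝ) - l / p) * VV ((p : ℝ) - 1 / 2)) := by
      field_simp
      ring
    have h5 : (F + ε') * ((((l / p + 1 : ℕ) : ℝ) - l / p) * VV ((p : ℝ) - 1 / 2)) ≤
        |F| + ε' := by
      have h6 : 0 ≤ (((l / p + 1 : ℕ) : ℝ) - l / p) * VV ((p : ℝ) - 1 / 2) :=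
        mul_nonneg (by linarith) hV0.le
      have h7 : (((l / p + 1 : ℕ) : ℝ) - l / p) * VV ((p : ℝ) - 1 / 2) ≤ 1 := by
        calc _ ≤ (1 : ℝ) * 1 := mul_le_mul (by linarith) hV1 hV0.le (by norm_num)
          _ = 1 := one_mul 1
      calc (F + ε') * ((((l / p + 1 : ℕ) : ℝ) - l / p) * VV ((p : ℝ) - 1 / 2))
          ≤ (|F| + ε') * ((((l / p + 1 : ℕ) : ℝ) - l / p) * VV ((p : ℝ) - 1 / 2)) := by
            apply mul_le_mul_of_nonneg_right _ h6
            linarith [le_abs_self F]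
        _ ≤ (|F| + ε') * 1 := by
            apply mul_le_mul_of_nonneg_left h7
            positivity
        _ = |F| + ε' := mul_one _
    rw [h4] at h3
    linarith
  have htel := Pool.Agent.Helper14.AV.telescope a b ha1 hab
  calc ∑ p ∈ PI a b, NP y l p
      ≤ ∑ p ∈ PI a b, ((F + ε') * l * (VV ((p : ℝ) - 1 / 2) / p) + (|F| + ε')) :=
        Finset.sum_le_sum hterm
    _ = (F + ε') * l * (VV a - VV b) + (PI a b).card * (|F| + ε') := by
        rw [Finset.sum_add_distrib, ← Finset.mul_sum, ← htel, Finset.sum_const, nsmul_eq_mul]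
    _ ≤ (F + ε') * l * (VV a - VV b) + (|F| + ε') * b := by
        have h1 := card_PI_le (a := a) hb0
        have h2 : ((PI a b).card : ℝ) * (|F| + ε') ≤ b * (|F| + ε') :=
          mul_le_mul_of_nonneg_right h1 (by positivity)
        linarith

theorem buch (y l : ℕ) {w z : ℝ} (hw : 1 ≤ w) (hwz : w ≤ z) :
    ((RS y l w).card : ℝ) ≤ (RS y l z).card + ∑ p ∈ PI w z, NP y l p := by
  refine (Pool.Agent.Helper14.AV.buchstab y l w z hw hwz).trans_eq ?_
  congr 1
  refine Finset.sum_congr rfl fun p _ => ?_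
  unfold NP
  congr!

theorem stepLo (hM : Mertens3) : StepLo := by
  intro s T g n t F hs ht0 htn hlt hU hL ε hε
  have hmono : ∀ j ≤ n, ∀ i ≤ j, t i ≤ t j := by
    intro j
    induction j with
    | zero =>
      intro _ i hi
      rw [Nat.le_zero.1 hi]
    | succ j ih =>
      intro hj i hi
      rcases Nat.lt_or_ge i (j + 1) with h | h
      · exact (ih (by omega) i (by omega)).trans (hlt j (by omega)).le
      · have : i = j + 1 := by omega
        rw [this]
  have hsi : ∀ i ≤ n, s ≤ t i := fun i hi => ht0 ▸ hmono i hi 0 (Nat.zero_le i)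
  have hTi : ∀ i ≤ n, t i ≤ T := fun i hi => htn ▸ hmono n le_rfl i hi
  have hsT : s ≤ T := htn ▸ hsi n le_rfl
  have hs0 : 0 < s := by linarith
  have hT0 : 0 < T := by linarith
  obtain ⟨ε', hε'def⟩ : ∃ ε' : ℝ, ε' = ε / (8 * (T / s + 1)) := ⟨_, rfl⟩
  have hε' : 0 < ε' := by rw [hε'def]; positivity
  have hεT : ε' * (T / s) ≤ ε / 8 := by
    rw [hε'def, div_mul_eq_mul_div, div_le_iff₀ (by positivity)]
    have : 0 ≤ T / s := by positivity
    nlinarith
  have hex : ∀ i, ∃ Z : ℝ, i < n → ∀ z : ℝ, Z ≤ z → ∀ y l : ℕ, z ^ (t i - 1) ≤ l →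
      ((RS y l z).card : ℝ) ≤ (F i + ε') * l * VV z := by
    intro i
    by_cases hi : i < n
    · obtain ⟨Z, hZ⟩ := hU i hi ε' hε'
      exact ⟨Z, fun _ => hZ⟩
    · exact ⟨0, fun h => absurd h hi⟩
  choose Z hZ using hex
  obtain ⟨ZL, hZL⟩ := hL ε' hε'
  obtain ⟨Zm, hZmdef⟩ : ∃ Zm : ℝ, Zm = ∑ i ∈ Finset.range n, |Z i| := ⟨_, rfl⟩
  have hZm : ∀ i < n, Z i ≤ Zm := by
    intro i hi
    rw [hZmdef]
    exact (le_abs_self _).trans (Finset.single_le_sum (f := fun i => |Z i|)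
      (fun j _ => abs_nonneg _) (Finset.mem_range.2 hi))
  obtain ⟨K, hKdef⟩ : ∃ K : ℝ, K = ∑ i ∈ Finset.range n, (|F i| + ε') := ⟨_, rfl⟩
  have hK0 : 0 ≤ K := by
    rw [hKdef]
    exact Finset.sum_nonneg fun i _ => by positivity
  obtain ⟨c, C, hc, _, hMP⟩ := Pool.Agent.Helper44.mertens_prod
  obtain ⟨f, hf⟩ : ∃ f : ℝ, f = T / s * g - 1 / s * ∑ i ∈ Finset.range n, (t (i + 1) - t i) * F i :=
    ⟨_, rfl⟩
  rw [← hf]
  -- eventual facts
  have hsTpos : 0 < s / T := by positivity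
  have e1 : ∀ᶠ z : ℝ in atTop, 1 < z := eventually_gt_atTop 1
  have e2 : ∀ᶠ z : ℝ in atTop, max ZL (Zm + 1) ≤ z ^ (s / T) :=
    (tendsto_rpow_top hsTpos).eventually_ge_atTop _
  have hlim : Tendsto (fun z : ℝ => (g - ε') * (VV (z ^ (s / T)) / VV z) -
      ∑ i ∈ Finset.range n, (F i + ε') * (VV (z ^ (s / t (i + 1))) / VV z -
        VV (z ^ (s / t i)) / VV z)) atTop
      (𝓝 ((g - ε') * (T / s) - ∑ i ∈ Finset.range n, (F i + ε') * (t (i + 1) / s - t i / s))) := by
    refine ((ratio_tendsto hM hs0 hT0).const_mul _).sub (tendsto_finsetSum _ fun i hi => ?_)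
    have hi' := Finset.mem_range.1 hi
    refine Tendsto.const_mul _ ?_
    exact (ratio_tendsto hM hs0 (hs0.trans_le (hsi (i + 1) (by omega)))).sub
      (ratio_tendsto hM hs0 (hs0.trans_le (hsi i (by omega))))
  have hlimval : f - ε / 4 ≤
      (g - ε') * (T / s) - ∑ i ∈ Finset.range n, (F i + ε') * (t (i + 1) / s - t i / s) := by
    have h1 : ∑ i ∈ Finset.range n, (F i + ε') * (t (i + 1) / s - t i / s) =
        1 / s * ∑ i ∈ Finset.range n, (t (i + 1) - t i) * F i + ε' * ((T - s) / s) := by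
      have h2 : ∑ i ∈ Finset.range n, (t (i + 1) - t i) = T - s := by
        rw [Finset.sum_range_sub, ht0, htn]
      rw [← h2, Finset.sum_div, Finset.mul_sum, Finset.mul_sum, ← Finset.sum_add_distrib]
      refine Finset.sum_congr rfl fun i _ => ?_
      field_simp
    rw [h1, hf]
    have h3 : ε' * ((T - s) / s) ≤ ε' * (T / s) := by
      apply mul_le_mul_of_nonneg_left _ hε'.le
      apply div_le_div_of_nonneg_right (by linarith) hs0.le
    nlinarith
  have e3 := hlim.eventually_const_lt (show f - ε / 2 < _ by linarith)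
  have e4 : ∀ᶠ z : ℝ in atTop, Real.log z ≤ (ε * c / (4 * (K + 1))) * z ^ (s - 1) := by
    have h1 := (isLittleO_log_rpow_atTop (show 0 < s - 1 by linarith)).bound
      (show (0 : ℝ) < ε * c / (4 * (K + 1)) by positivity)
    filter_upwards [h1, eventually_ge_atTop (1 : ℝ)] with z hz hz1
    rw [Real.norm_of_nonneg (Real.log_nonneg hz1),
      Real.norm_of_nonneg (Real.rpow_nonneg (by linarith) _)] at hz
    exact hz
  obtain ⟨z₀, hz₀⟩ := eventually_atTop.1 (e1.and (e2.and (e3.and (e4.and (eventually_ge_atTop 2)))))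
  refine ⟨z₀, fun z hz y l hl => ?_⟩
  obtain ⟨h1, h2, h3, h4, h5⟩ := hz₀ z hz
  have hz0 : 0 < z := by linarith
  have hLz : 0 < Real.log z := Real.log_pos h1
  have hV := vv_pos z
  have hl0 : (0 : ℝ) ≤ l := Nat.cast_nonneg l
  obtain ⟨w, hw⟩ : ∃ w : ℕ → ℝ, w = fun i => z ^ (s / t i) := ⟨_, rfl⟩
  have hw0 : w 0 = z := by
    rw [hw]
    simp only [ht0, div_self hs0.ne', Real.rpow_one]
  have hwn : w n = z ^ (s / T) := by
    rw [hw]
    simp only [htn]
  have hwpos : ∀ i, 0 < w i := fun i => by rw [hw]; exact Real.rpow_pos_of_pos hz0 _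
  have hwlt : ∀ i < n, w (i + 1) ≤ w i := by
    intro i hi
    rw [hw]
    apply Real.rpow_le_rpow_of_exponent_le h1.le
    exact div_le_div_of_nonneg_left hs0.le (hs0.trans_le (hsi i hi.le)) (hlt i hi).le
  have hwge : ∀ i ≤ n, w n ≤ w i := by
    intro i hi
    rw [hw]
    apply Real.rpow_le_rpow_of_exponent_le h1.le
    exact div_le_div_of_nonneg_left hs0.le (hs0.trans_le (hsi i hi)) (hmono n le_rfl i hi)
  have hwle : ∀ i ≤ n, w i ≤ z := by
    intro i hi
    rw [← hw0]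
    rw [hw]
    apply Real.rpow_le_rpow_of_exponent_le h1.le
    rw [ht0]
    exact div_le_div_of_nonneg_left hs0.le hs0 (hsi i hi)
  have hwn1 : 1 ≤ w n := by
    rw [hwn]
    exact Real.one_le_rpow h1.le hsTpos.le
  have hwnZ : Zm + 1 ≤ w n := by
    rw [hwn]
    exact (le_max_right _ _).trans h2
  have hlow := hZL (w n) (by rw [hwn]; exact (le_max_left _ _).trans h2) y l (by
    rw [hwn, ← Real.rpow_mul hz0.le, div_mul_cancel₀ _ hT0.ne']
    exact hl)
  have hB := buch y l hwn1 (hwle n le_rfl)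
  have hsum : ∑ p ∈ PI (w n) z, NP y l p ≤
      ∑ i ∈ Finset.range n, ((F i + ε') * l * (VV (w (i + 1)) - VV (w i)) + (|F i| + ε') * z) := by
    have h6 := sum_bands w (NP y l) n (fun i _ => (hwpos i).le) hwlt
    rw [hw0] at h6
    rw [h6]
    refine Finset.sum_le_sum fun i hi => ?_
    have hi' := Finset.mem_range.1 hi
    have h7 := band_up (t := t i) (F := F i) (ε' := ε') (Z := Z i) (a := w (i + 1)) (b := w i)
      (y := y) (l := l) (by linarith [hsi i hi'.le]) hε'.le (hZ i hi')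
      (hwn1.trans (hwge (i + 1) (by omega))) (hwlt i hi')
      (by linarith [hZm i hi', hwge (i + 1) (by omega)])
      (by
        rw [hw]
        rw [← Real.rpow_mul hz0.le, div_mul_cancel₀ _ (hs0.trans_le (hsi i hi'.le)).ne']
        exact hl)
    have h8 : (|F i| + ε') * w i ≤ (|F i| + ε') * z :=
      mul_le_mul_of_nonneg_left (hwle i hi'.le) (by positivity)
    linarith
  rw [Finset.sum_add_distrib, ← Finset.sum_mul, ← hKdef] at hsum
  have hKz : K * z ≤ ε / 4 * (l * VV z) := by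
    have hVc : c / Real.log z ≤ VV z := (hMP z h5).1
    have h6 : z ^ s = z * z ^ (s - 1) := by
      rw [← Real.rpow_one_add' hz0.le (by linarith)]
      congr 1
      ring
    have h7 : K * Real.log z ≤ ε * c / 4 * z ^ (s - 1) := by
      calc K * Real.log z ≤ (K + 1) * ((ε * c / (4 * (K + 1))) * z ^ (s - 1)) :=
            mul_le_mul (by linarith) h4 hLz.le (by positivity)
        _ = ε * c / 4 * z ^ (s - 1) := by field_simp
    have h8 : K ≤ ε / 4 * (c / Real.log z) * z ^ (s - 1) := by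
      have : ε / 4 * (c / Real.log z) * z ^ (s - 1) = (ε * c / 4 * z ^ (s - 1)) / Real.log z := by
        ring
      rw [this, le_div_iff₀ hLz]
      exact h7
    calc K * z ≤ (ε / 4 * (c / Real.log z) * z ^ (s - 1)) * z :=
          mul_le_mul_of_nonneg_right h8 hz0.le
      _ = ε / 4 * ((z * z ^ (s - 1)) * (c / Real.log z)) := by ring
      _ ≤ ε / 4 * (l * VV z) := by
          apply mul_le_mul_of_nonneg_left _ (by positivity)
          rw [← h6]
          exact mul_le_mul hl hVc (by positivity) hl0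
  have hΦ : (l * VV z) * ((g - ε') * (VV (z ^ (s / T)) / VV z) -
      ∑ i ∈ Finset.range n, (F i + ε') * (VV (z ^ (s / t (i + 1))) / VV z -
        VV (z ^ (s / t i)) / VV z)) =
      (g - ε') * l * VV (w n) -
        ∑ i ∈ Finset.range n, (F i + ε') * l * (VV (w (i + 1)) - VV (w i)) := by
    rw [mul_sub, Finset.mul_sum, hwn]
    congr 1
    · field_simp
    · refine Finset.sum_congr rfl fun i _ => ?_
      rw [hw]
      field_simp
  have h9 : (l * VV z) * (f - ε / 2) ≤ (l * VV z) * ((g - ε') * (VV (z ^ (s / T)) / VV z) -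
      ∑ i ∈ Finset.range n, (F i + ε') * (VV (z ^ (s / t (i + 1))) / VV z -
        VV (z ^ (s / t i)) / VV z)) := mul_le_mul_of_nonneg_left h3.le (by positivity)
  rw [hΦ] at h9
  have h10 : 0 ≤ l * VV z := by positivity
  nlinarith

end Pool.Agent.Helper5.AV
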