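import Pool.Agent.Helper40.AV.Base
import Pool.Agent.Helper40.AV.St2
import Pool.Agent.Helper14.AV.Buch

/-! Project AV part 2 (KS, MP_768c9c_nt): tools for the Buchstab steps. -/

set_option autoImplicit false

open Filter Topology

namespace Pool.Agent.Helper5.AV

open Pool.Agent.Helper40.AV

/-- the number of integers in a Buchstab term -/
noncomputable def NP (y l p : ℕ) : ℝ :=
  (((@Finset.filter ℕ (fun n => p ∣ n ∧ ∀ r : ℕ, r.Prime → r ∣ n → (p : ℝ) - 1 / 2 < r)
    (Classical.decPred _) (Finset.Ico y (y + l))).card : ℕ) : ℝ)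

theorem ratio_tendsto (hM : Mertens3) {s t : ℝ} (hs : 0 < s) (ht : 0 < t) :
    Tendsto (fun z : ℝ => VV (z ^ (s / t)) / VV z) atTop (𝓝 (t / s)) := by
  have ha : 0 < s / t := by positivity
  have h1 := hM.comp (tendsto_rpow_top ha)
  have hne : Real.exp (-Real.eulerMascheroniConstant) ≠ 0 := (Real.exp_pos _).ne'
  have h2 := h1.div hM hne
  rw [div_self hne] at h2
  have h3 := h2.const_mul (t / s)
  rw [mul_one] at h3
  refine h3.congr' ?_
  filter_upwards [eventually_gt_atTop (1 : ℝ)] with z hz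
  have hz0 : 0 < z := by linarith
  have hL : Real.log z ≠ 0 := (Real.log_pos hz).ne'
  have hV : VV z ≠ 0 := (vv_pos z).ne'
  simp only [Function.comp_apply, Pi.div_apply, Real.log_rpow hz0]
  field_simp

theorem sum_PI_split {a b c : ℝ} (ha : 0 ≤ a) (hab : a ≤ b) (hbc : b ≤ c) (h : ℕ → ℝ) :
    ∑ p ∈ PI a c, h p = ∑ p ∈ PI a b, h p + ∑ p ∈ PI b c, h p := by
  classical
  have hb : 0 ≤ b := ha.trans hab
  have hc : 0 ≤ c := hb.trans hbc
  rw [← Finset.sum_union]
  · refine Finset.sum_congr ?_ (fun _ _ => rfl)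
    ext p
    rw [Finset.mem_union, mem_PI hc, mem_PI hb, mem_PI hc]
    constructor
    · rintro ⟨h1, h2, h3⟩
      rcases le_or_gt (p : ℝ) b with h4 | h4
      · exact Or.inl ⟨h1, h2, h4⟩
      · exact Or.inr ⟨h1, h4, h3⟩
    · rintro (⟨h1, h2, h3⟩ | ⟨h1, h2, h3⟩)
      · exact ⟨h1, h2, h3.trans hbc⟩
      · exact ⟨h1, hab.trans_lt h2, h3⟩
  · rw [Finset.disjoint_left]
    intro p h1 h2
    exact absurd ((mem_PI hb).1 h1).2.2 (not_le.2 ((mem_PI hc).1 h2).2.1)

theorem sum_bands (w : ℕ → ℝ) (h : ℕ → ℝ) (n : ℕ) (hw0 : ∀ i ≤ n, 0 ≤ w i)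
    (hw : ∀ i < n, w (i + 1) ≤ w i) :
    ∑ p ∈ PI (w n) (w 0), h p = ∑ i ∈ Finset.range n, ∑ p ∈ PI (w (i + 1)) (w i), h p := by
  induction n with
  | zero =>
    rw [Finset.range_zero, Finset.sum_empty]
    refine Finset.sum_eq_zero fun p hp => ?_
    obtain ⟨_, h1, h2⟩ := (mem_PI (hw0 0 le_rfl)).1 hp
    exact absurd h2 (not_le.2 h1)
  | succ n ih =>
    have hmono : ∀ i ≤ n, w n ≤ w 0 := by
      have : ∀ i ≤ n, w i ≤ w 0 := by
        intro i
        induction i with
        | zero => exact fun _ => le_rfl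
        | succ i ih2 => exact fun hi => (hw i (by omega)).trans (ih2 (by omega))
      exact fun _ _ => this n le_rfl
    rw [Finset.sum_range_succ, ← ih (fun i hi => hw0 i (by omega)) (fun i hi => hw i (by omega)),
      sum_PI_split (hw0 (n + 1) le_rfl) (hw n (by omega)) (hmono n le_rfl), add_comm]

theorem NP_le (y l p : ℕ) (hp : p.Prime) :
    NP y l p ≤ ((RS ((y + p - 1) / p) (l / p + 1) ((p : ℝ) - 1 / 2)).card : ℝ) := by
  classical
  unfold NP
  norm_cast
  refine Finset.card_le_card_of_injOn (fun n => n / p) ?_ ?_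
  · intro n hn
    have hn' := Finset.mem_filter.1 hn
    obtain ⟨h1, ⟨m, hm⟩, h3⟩ := hn'
    rw [Finset.mem_Ico] at h1
    have hp0 := hp.pos
    have hdiv : n / p = m := by rw [hm, Nat.mul_div_cancel_left _ hp0]
    have hmem : m ∈ RS ((y + p - 1) / p) (l / p + 1) ((p : ℝ) - 1 / 2) := by
      unfold RS
      rw [Finset.mem_filter, Finset.mem_Ico]
      refine ⟨⟨?_, ?_⟩, fun r hr hrm => h3 r hr (hm ▸ Dvd.dvd.mul_left hrm p)⟩
      · have h4 : (y + p - 1) / p ≤ m := by
          rw [Nat.div_le_iff_le_mul_add_pred hp0]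
          have : y ≤ p * m := hm ▸ h1.1
          omega
        exact h4
      · by_contra hcon
        push Not at hcon
        have h5 : y ≤ p * ((y + p - 1) / p) := by
          have h6 := Nat.div_add_mod (y + p - 1) p
          have h7 := Nat.mod_lt (y + p - 1) hp0
          omega
        have h6 : l < p * (l / p + 1) := by
          have h7 := Nat.div_add_mod l p
          have h8 := Nat.mod_lt l hp0
          rw [Nat.mul_add, Nat.mul_one]
          omega
        have h7 : p * ((y + p - 1) / p + (l / p + 1)) ≤ p * m := Nat.mul_le_mul_left p hcon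
        rw [Nat.mul_add] at h7
        have h8 : p * m < y + l := hm ▸ h1.2
        omega
    show n / p ∈ (RS ((y + p - 1) / p) (l / p + 1) ((p : ℝ) - 1 / 2) : Set ℕ)
    rw [hdiv]
    exact Finset.mem_coe.2 hmem
  · intro n hn n' hn' hnn
    obtain ⟨_, ⟨m, hm⟩, _⟩ := Finset.mem_filter.1 hn
    obtain ⟨_, ⟨m', hm'⟩, _⟩ := Finset.mem_filter.1 hn'
    have hp0 := hp.pos
    simp only at hnn
    rw [hm, hm', Nat.mul_div_cancel_left _ hp0, Nat.mul_div_cancel_left _ hp0] at hnn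
    rw [hm, hm', hnn]

theorem card_PI_le {a b : ℝ} (hb : 0 ≤ b) : ((PI a b).card : ℝ) ≤ b := by
  classical
  have hsub : PI a b ⊆ Finset.Icc 1 ⌊b⌋₊ := by
    intro p hp
    obtain ⟨h1, _, h3⟩ := (mem_PI hb).1 hp
    rw [Finset.mem_Icc]
    exact ⟨h1.one_le, Nat.le_floor h3⟩
  have h1 := Finset.card_le_card hsub
  rw [Nat.card_Icc] at h1
  calc ((PI a b).card : ℝ) ≤ (⌊b⌋₊ : ℝ) := by exact_mod_cast (by omega : (PI a b).card ≤ ⌊b⌋₊)
    _ ≤ b := Nat.floor_le hb

end Pool.Agent.Helper5.AV
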